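import Pool.Agent.H860.WE.CatMain

/-!
# `L^n(X)` is equivalent to `K^n(X)`, and to its rational form at one prime, for `n ≤ d / 2` and `n ≥ d`

Let `X` be a smooth projective variety of dimension `d` over a finite field `k`. Geisser proved that
`K^n(X)` and `K^(d-n)(X)` together imply `L^n(X)`, and that `L^n(X)` implies `K^n(X)`. We prove that for
`2 n ≤ d` (and for `n ≥ d`) the statement `K^n(X)` alone is sufficient, and that it is sufficient to have
the comparison isomorphism with rational coefficients for one prime `ℓ`, which may be the characteristic.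
For all `n` with `n + n' = d` the rational comparison isomorphism in the weight `n` for one prime and
Tate's conjecture in codimension `n'` for the same prime, or the statement that numerically trivial
classes in the weight `n` are torsion, are sufficient. Hence Lichtenbaum's conjecture for `X` (`L^n(X)` for
all `n`) is equivalent to the statement that for each `n` there is one prime `ℓ`, which may depend on `n`,
with `H^i_W(X, ℤ(n)) ⊗ ℚ_ℓ ≅ H^i(X, ℚ_ℓ(n))` for all `i`.

The groups are `M n i = H^i_W(X, ℤ(n))`, `H ℓ n i = H^i(X, ℤ_ℓ(n))`, `T ℓ n i = H^i(X, ℤ/ℓ(n))` and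
`V ℓ n = H^(2n)(X̄, ℚ_ℓ(n))`, for all primes `ℓ`. The following known properties are used:

* `IsMotivic`: the long exact sequences for the multiplication by `ℓ` (Weil-étale and étale cohomology
  with torsion coefficients agree), and the exactness of the complex `(H^*_W(X, ℚ(n)), e)`, which follows
  from `H^i_W(X, ℚ(n)) = H^i(X, ℚ(n)) ⊕ H^(i-1)(X, ℚ(n))`, `e (a, b) = (0, a)` (Geisser, Weil-étale
  cohomology over finite fields);
* `IsEven`, `IsOdd`, `IsWeights`: `H^i(X, ℤ_ℓ(n))` is finitely generated; up to torsion it is zero for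
  `i ≠ 2n, 2n+1`, the invariants of Frobenius for `i = 2n` and the coinvariants for `i = 2n + 1`
  (Deligne; Colliot-Thélène, Sansuc and Soulé; Milne for `ℓ = p`), and the product with `e` is the obvious
  map `V^F → V_F`; the multiplicity of the eigenvalue one is independent of `ℓ` (Deligne; Katz and
  Messing); for almost all `ℓ` there is no torsion in `H^*(X̄, ℤ_ℓ)` (Gabber), and what follows from
  this and the weights;
* `IsDuality`: Poincaré duality `B` and its compatibility with the product and the degree map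
  `H^(2d+1)_W(X, ℤ(d)) → ℤ`;
* `IsLefschetz`: `H^(2n)(X̄, ℚ_ℓ) = 0` for `n > d`, the invariants of `H^0(X̄, ℚ_ℓ)` come from
  `H^0_W(X, ℤ)`, and the hard Lefschetz theorem.
-/

namespace Pool.Agent.Results.MP_cb388a_ag.OnePrimeHalfRange

open Pool.Agent.H860.WE.Cat Polynomial

/-- **`L^n(X)` and `K^n(X)` are equivalent for `n ≤ d / 2` and `n ≥ d`, and equivalent to the rational
comparison isomorphism for one prime.** -/
theorem result (X : Groups) (d : ℕ) (P : ℕ → ℚ[X]) (m : Maps X) (h1 : IsMotivic m)
    (h2 : IsEven P m) (h3 : IsOdd m) (h4 : IsWeights P m) (h5 : IsDuality d m)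
    (h6 : IsLefschetz d m) :
    -- the weights `n ≤ d / 2` and `n ≥ d`
    (∀ n : ℕ, 2 * n ≤ d ∨ d ≤ n → (L X n ↔ K m n) ∧
      (L X n ↔ ∃ (ℓ : ℕ) (_ : Fact ℓ.Prime), KQ m ℓ n)) ∧
    -- all weights
    (∀ n n' : ℕ, n + n' = d → ∀ (ℓ : ℕ) [Fact ℓ.Prime], KQ m ℓ n →
      Tate m ℓ n' ∨ Num m n n' → L X n) ∧
    -- all weights together
    ((∀ n, L X n) ↔ ∀ n, ∃ (ℓ : ℕ) (_ : Fact ℓ.Prime), KQ m ℓ n) :=
  mainCat h1 h2 h3 h4 h5 h6

end Pool.Agent.Results.MP_cb388a_ag.OnePrimeHalfRange
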