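import Pool.Agent.H857.MX.Master
import Pool.Agent.H857.MX.Good
import Pool.Graph.R_pool_sql_team_seeded_2aa45f1a.Q64.M.Fg

/-!
# MP_cb388a_ag: finite generation of the Weil-étale motivic cohomology of `A × Z`, for arbitrary
smooth projective varieties `Z` over finite fields and all abelian varieties `A` but a set of
isogeny classes of the exact order of magnitude of its size

Let `g i` (`i` in a finite set `I`) be positive integers. For a prime power `q = p ^ a` let
`families g p a` be the finite set of the families `f i` of Weil polynomials of degrees `2 g i`
relative to `q` with integral Newton polygons. It contains the families of the characteristic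
polynomials of the Frobenius endomorphisms of abelian varieties `A i` of dimensions `g i` over the
field with `q` elements (Weil), which determine the `A i` up to isogeny (Tate). It has about `q ^
(∑ g i (g i + 1) / 4)` elements.

Let the `ρ k` be `r` Weil numbers of weights less than `c` with slopes in `(1 / D) ℤ`, for
instance the eigenvalues of Frobenius on the `ℓ`-adic cohomology of a variety over the field with
`q` elements. The family `f` is exceptional if there is a multiplicative relation between roots of
the `f i`, the numbers `ρ k` and `q`, up to roots of unity, which does not come from the pairs of
conjugate roots `z`, `q / z`.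

1. The proportion of the exceptional families among all the families is of the exact order of
magnitude `∑ q ^ (- δ (g i) / 2)`, where `δ (g) = g` for `g ≠ 2` and `δ (2) = 1`: it is at most
`C` times, and at least `1 / C` times this sum. The constant `C` depends only on the `g i`, on
`r`, `c` and `D` - not on `p`, `q` and the `ρ k`.

2. Let `f` be a family which is not exceptional, and let `A` be an abelian variety over the field
with `Q = q ^ s` elements, `s > 0`, which is isogenous to a product of powers of abelian varieties
`A i` with characteristic polynomials `f i`. Let `Z` be **any** smooth projective variety of
dimension `d` over the field with `Q` elements such that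

* the eigenvalues of Frobenius on the `ℓ`-adic cohomology of `Z` lie, up to powers, in the group
  generated by the `ρ k` and `q` (`Generated`);
* the Frobenius endomorphism of `Z` satisfies on each group `H^i(A × Z, ℚ(n))` a nonzero
  polynomial with rational coefficients whose complex roots have the same property. For instance
  this is so if the motive of `Z` is finite-dimensional (Kimura) and the first condition is
  satisfied.

**For every `n` the following are equivalent: `L^m(A × Z)` is true for `m = n` and `m = dim A + d
- n`; `L^m(Z)` is true for `m = n - k` and `m = d - (n - k)`, for all `0 ≤ k ≤ dim A`.** Here
`L^m` is the statement that the Weil-étale motivic cohomology groups `H^i_W(ℤ(m))` are finitely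
generated for all `i` (`AllFG`); for negative `m` it is true. In particular Q1 is true for `A × Z`
and all `n` if and only if it is true for `Z` and all `n`. Moreover `K^n(A × Z)` is true if and
only if `K^(n - k)(Z)` is true for all `0 ≤ k ≤ dim A`. No case of the conjectures of Tate,
Beilinson and Parshin is assumed.

The pair of the weights `n` and `dim A + d - n` is considered since the theorem of Geisser which
is used (`GeisserTheorem`, known) says that `K^n` and `K^(d - n)` imply `L^n`, and that `L^n`
implies `K^n`. The statement `K^n` is used in the form (`RegulatorIsoN`, `RegulatorIsoM`): for all
prime numbers `l` and all `i` the group `H^i(Z, ℚ(n)) ⊗ ℚ_l` is mapped isomorphically to the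
Galois invariants of the `l`-adic cohomology over an algebraic closure, and the eigenvalue `1` of
Frobenius is semisimple. This is equivalent, since the cone of the map in `K^n` is uniquely
divisible, and `H^i_W(Z, ℚ(n))` is the sum of `H^i(Z, ℚ(n))` and `H^(i - 1)(Z, ℚ(n))` (Geisser).

What is used of `A` are known theorems (`IsAbelian`): `H(A)` is generated by `H^1`, Frobenius is
diagonalizable on `H^1` (Weil), the theorem of Tate on divisors, and the nilpotence of
homologically trivial correspondences (Kimura). The theories `T l` (motivic cohomology, tensored
with `ℚ_l`) and `R l` (`l`-adic cohomology over an algebraic closure) of `Z` and `A × Z` are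
modelled by `RelData`, with the formal properties in `IsTheory`: degrees, products with classes on
`A`, push-forward to `Z`, the projection formula, the operation of the correspondences of `A` and
of the Frobenius endomorphism of `Z`. The Frobenius endomorphism of `A × Z` is the multiplication
by `Q ^ n` on `H^i(A × Z, ℚ(n))` (`IsPure`).

The framework and the geometric part (`Q64.M.weilEtaleReduces`) are those of the theorem
`AllCMTypesTimes` of the library, which bounds the number of the exceptional slope types of CM
fields and asks that the eigenvalues of the other factor are unrelated to these fields. In other
theorems of the library the exceptional set of isogeny classes has a proportion `O (q ^ (-1 / 6)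
log q)`, without a lower bound, for other factors with eigenvalues in a group of small rank over a
fixed number field. New here are the arbitrary eigenvalues, the uniformity in `p` and the exact
order of magnitude of the exceptional set. The count is that of MP_557161_ag: the slopes bound the
exponents of the relations, up to proportionality, and each relation is a nontrivial algebraic
equation for the coefficients on almost all pencils of Weil polynomials, by the expansions of the
roots at infinity.
-/

set_option autoImplicit false

namespace Pool.Agent.Results.MP_cb388a_ag.SharpExceptionalSet

open Pool.Agent.H857.SX Pool.Agent.H857.MX Pool.Agent.Q64.L Pool.Agent.Q64.M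

/-- **The exceptional set.** -/
theorem result {I : Type} [Fintype I] (g : I → ℕ) (hg : ∀ i, 0 < g i) (r D c : ℕ) (hD : 0 < D) :
    ∃ C : ℝ, 0 < C ∧ ∀ (p : ℕ) [Fact p.Prime] (a : ℕ), 0 < a →
      ((families g p a).Finite ∧
        ∏ i, Real.sqrt ((p : ℝ) ^ a) ^ (g i * (g i + 1) / 2) ≤ C * (families g p a).ncard ∧
        (families g p a).ncard ≤ C * ∏ i, Real.sqrt ((p : ℝ) ^ a) ^ (g i * (g i + 1) / 2)) ∧
      ∀ (w : Fin r → ℕ) (ρ : Fin r → ℂ), (∀ k, w k < c ∧ IsWeilNumber p a D (w k) (ρ k)) →
        (({f ∈ families g p a | ¬ Independent f (p ^ a) ρ}.ncard : ℝ) ≤
            C * (rate g ((p : ℝ) ^ a) * (families g p a).ncard) ∧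
          rate g ((p : ℝ) ^ a) * (families g p a).ncard ≤
            C * {f ∈ families g p a | ¬ Independent f (p ^ a) ρ}.ncard) ∧
        ∀ f ∈ families g p a, Independent f (p ^ a) ρ →
          WeilEtaleReduces (RootsIn (Generated (p ^ a) ρ)) (p ^ a) f :=
  Pool.Agent.H857.MX.master g hg r D c hD (fun q f R => WeilEtaleReduces (RootsIn R) q f)
    fun _ _ _ hq _ h0 hR => weilEtaleReduces hq (good_of_noRel hR h0)

end Pool.Agent.Results.MP_cb388a_ag.SharpExceptionalSet
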